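import Pool.Agent.K1H5.PLN.Stm2

/-! Bounded displacement implies translation on fat cells. -/

set_option autoImplicit false

namespace Pool.Agent.K1H33.PLN

open Matrix Topology Filter
open Pool.Agent.K1H5.PLN

theorem exd {n : ℕ} (G : Finset (Matrix (Fin n) (Fin n) ℝ × V n)) :
    ∃ δ : ℝ, 0 < δ ∧ ∀ g ∈ G, g.1 ≠ 1 → ∃ i j, δ ≤ |(g.1 - 1) i j| := by
  classical
  induction G using Finset.induction_on with
  | empty => exact ⟨1, one_pos, fun g hg => absurd hg (Finset.notMem_empty g)⟩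
  | insert a s ha ih =>
    obtain ⟨δ, hδ, h⟩ := ih
    by_cases ha1 : a.1 = 1
    · refine ⟨δ, hδ, fun g hg hg1 => ?_⟩
      rcases Finset.mem_insert.1 hg with rfl | hg
      · exact absurd ha1 hg1
      · exact h g hg hg1
    · have hne : ∃ i j, (a.1 - 1) i j ≠ 0 := by
        by_contra hcon
        push Not at hcon
        apply ha1
        have : a.1 - 1 = 0 := by
          ext i j
          rw [hcon i j]; rfl
        exact sub_eq_zero.1 this
      obtain ⟨i, j, hij⟩ := hne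
      refine ⟨min δ |(a.1 - 1) i j|, lt_min hδ (abs_pos.2 hij), fun g hg hg1 => ?_⟩
      rcases Finset.mem_insert.1 hg with rfl | hg
      · exact ⟨i, j, min_le_right _ _⟩
      · obtain ⟨i', j', h'⟩ := h g hg hg1
        exact ⟨i', j', (min_le_left _ _).trans h'⟩

theorem t_TRA : S_TRA := by
  classical
  intro n h Λ G hdata hB
  obtain ⟨hΛ, hG, hcell⟩ := hdata
  obtain ⟨C, hC⟩ := hB
  obtain ⟨δ, hδ, hδG⟩ := exd G
  set L : ℝ := 1 + ∑ l ∈ Λ, ∑ j, |l.1 j| with hL
  have hS0 : ∀ l : V n × ℝ, 0 ≤ ∑ j, |l.1 j| := fun l => Finset.sum_nonneg fun j _ => abs_nonneg _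
  have hL0 : 0 < L := by
    have : 0 ≤ ∑ l ∈ Λ, ∑ j, |l.1 j| := Finset.sum_nonneg fun l _ => hS0 l
    linarith
  have hLl : ∀ l ∈ Λ, ∀ j, |l.1 j| ≤ L := by
    intro l hl j
    have h1 : |l.1 j| ≤ ∑ j, |l.1 j| :=
      Finset.single_le_sum (f := fun j => |l.1 j|) (fun i _ => abs_nonneg _) (Finset.mem_univ j)
    have h2 : ∑ j, |l.1 j| ≤ ∑ l ∈ Λ, ∑ j, |l.1 j| :=
      Finset.single_le_sum (f := fun l : V n × ℝ => ∑ j, |l.1 j|) (fun i _ => hS0 i) hl
    linarith
  set ρ : ℝ := (2 * |C| + 1) / δ with hρ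
  have hρ0 : 0 < ρ := div_pos (by positivity) hδ
  have hρδ : ρ * δ = 2 * |C| + 1 := by
    rw [hρ]; field_simp
  refine ⟨L * ρ, mul_pos hL0 hρ0, fun x hx => ?_⟩
  have hne : ∀ l ∈ Λ, ev l x ≠ 0 := by
    intro l hl h0
    have := hx l hl
    rw [h0, abs_zero] at this
    exact absurd this (not_lt.2 (mul_pos hL0 hρ0).le)
  obtain ⟨g, hg, hgy⟩ := hcell x hne
  have h1 : g.1 = 1 := by
    by_contra hcon
    obtain ⟨i, j, hij⟩ := hδG g hg hcon
    have hxx := hgy x (fun l hl => mul_self_pos.2 (hne l hl))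
    obtain ⟨y, hyd⟩ : ∃ y : V n, y = x + Pi.single j ρ := ⟨_, rfl⟩
    have hyc : ∀ l ∈ Λ, 0 < ev l x * ev l y := by
      intro l hl
      have e1 : ev l y = ev l x + l.1 j * ρ := by
        rw [hyd]
        unfold ev
        rw [dotProduct_add, dotProduct_single]
        ring
      rw [e1]
      have h2 : |l.1 j * ρ| < |ev l x| := by
        rw [abs_mul, abs_of_pos hρ0]
        exact lt_of_le_of_lt (mul_le_mul_of_nonneg_right (hLl l hl j) hρ0.le) (hx l hl)
      have h3 : -(|ev l x| * |l.1 j * ρ|) ≤ ev l x * (l.1 j * ρ) := by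
        rw [← abs_mul]; exact neg_abs_le _
      have h4 : ev l x * ev l x = |ev l x| * |ev l x| := (abs_mul_abs_self _).symm
      have h5 : 0 < |ev l x| := abs_pos.2 (hne l hl)
      nlinarith
    have hyy := hgy _ hyc
    have h6 : (h y i - y i) - (h x i - x i) = ρ * (g.1 - 1) i j := by
      rw [hyy, hxx, hyd]
      simp only [Pi.add_apply, mulVec_add, mulVec_single, Matrix.sub_apply]
      by_cases hijj : i = j
      · subst hijj
        simp [Matrix.one_apply_eq]
        ring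
      · simp [Matrix.one_apply_ne hijj, Pi.single_eq_of_ne hijj]
        ring
    have h7 := hC y i
    have h8 := hC x i
    have h9 : |ρ * (g.1 - 1) i j| ≤ 2 * |C| := by
      rw [← h6]
      calc |(h y i - y i) - (h x i - x i)|
          ≤ |h y i - y i| + |h x i - x i| := abs_sub _ _
        _ ≤ C + C := add_le_add h7 h8
        _ ≤ 2 * |C| := by linarith [le_abs_self C]
    rw [abs_mul, abs_of_pos hρ0] at h9
    have h10 : ρ * δ ≤ ρ * |(g.1 - 1) i j| := mul_le_mul_of_nonneg_left hij hρ0.le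
    linarith
  refine ⟨g, hg, h1, fun y hy => ?_⟩
  rw [hgy y hy, h1, one_mulVec]

end Pool.Agent.K1H33.PLN
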